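import Pool.Agent.Helper54.PT.Defs

/-!
# Positive proportion of twists: the prime data of `F[X]`
-/

set_option autoImplicit false

namespace Pool.Agent.Helper54.PT

open Polynomial Finset Filter Topology

/-- The prime data of `F[X]` with the primes `R r` removed.  `hrec` is the reciprocity law. -/
noncomputable def pd {F : Type} [Field F] [Finite F] {ℓ : ℕ} {σ : Type} (lg : F → ZMod ℓ)
    (hrec : ∀ P Q : Prm F, P ≠ Q → sy lg Q.1 P.1 = sy lg P.1 Q.1) (R : σ → Prm F) :
    PData ℓ σ where
  P := {P : Prm F // ∀ r, P ≠ R r}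
  dec := Classical.decEq _
  deg P := P.1.1.natDegree
  pr k := (Set.Finite.preimage (f := fun P : {P : Prm F // ∀ r, P ≠ R r} => P.1)
    (Subtype.val_injective.injOn) ((prm F k).finite_toSet)).toFinset
  sym P P' := sy lg P'.1.1 P.1.1
  cl P r := sy lg P.1.1 (R r).1
  deg_pos P := P.1.2.2.natDegree_pos
  mem_pr k P := by
    rw [Set.Finite.mem_toFinset, Set.mem_preimage, mem_coe, mem_prm]
  sym_comm P P' h := hrec P.1 P'.1 fun h2 => h (Subtype.ext h2)

end Pool.Agent.Helper54.PT
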