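import Pool.Agent.Helper54.PT.Defs
import Pool.Agent.Helper47.BSD.Main

/-!
# Positive proportion of twists: definitions for the local descent
-/

set_option autoImplicit false

namespace Pool.Agent.Helper54.PT

open Polynomial Finset Filter Topology

universe u

/-- A natural number inverse to `n` modulo `ℓ`. -/
def inva (ℓ n : ℕ) : ℕ := ((n : ZMod ℓ)⁻¹).val

/-- The tuple attached to the torsion point `(e i, 0)`: its components are `e i - e j` for `j ≠ i`,
and the `i`-th component is determined modulo `ℓ`-th powers by `∏ d j ^ a j = 1`. -/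
noncomputable def tt (ℓ : ℕ) {ι : Type} [Fintype ι] [DecidableEq ι] (a : ι → ℕ) {k : Type u}
    [Field k] (e : ι → k) (i j : ι) : k :=
  if j = i then ((∏ m ∈ univ.erase i, (e i - e m) ^ a m) ^ inva ℓ (a i))⁻¹ else e i - e j

/-- Complete discretely valued fields with finite residue field, residue characteristic different
from `ℓ`, containing a primitive `ℓ`-th root of unity. -/
structure LF (ℓ : ℕ) {k : Type u} [NormedField k] (π : k) : Prop where
  pos : 0 < ‖π‖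
  lt_one : ‖π‖ < 1
  disc : ∀ x : k, x ≠ 0 → ∃ m : ℤ, ‖x‖ = ‖π‖ ^ m
  norm_ell : ‖(ℓ : k)‖ = 1
  root : ∃ ζ : k, IsPrimitiveRoot ζ ℓ
  fin : ∃ R : Finset k, ∀ x : k, ‖x‖ ≤ 1 → ∃ r ∈ R, ‖x - r‖ < 1

section RatFunc

variable {F : Type} [Field F]

/-- The order of `x` at `Q`. -/
noncomputable def ordK (Q : Prm F) (x : RatFunc F) : ℤ :=
  (multiplicity Q.1 x.num : ℤ) - multiplicity Q.1 x.denom

/-- The leading coefficient. -/
noncomputable def lcK (x : RatFunc F) : F := x.num.leadingCoeff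

/-- The logarithm of the residue of `x / P ^ ord` at `P`, written through the factorisation. -/
noncomputable def rsK {ℓ : ℕ} (lg : F → ZMod ℓ) (P : Prm F) (x : RatFunc F) : ZMod ℓ :=
  (∑ᶠ Q : Prm F, (if Q = P then 0 else (ordK Q x : ZMod ℓ) * sy lg P.1 Q.1)) +
    (P.1.natDegree : ZMod ℓ) * lg (lcK x)

/-- `v` is the absolute value of `F(t)` attached to `P`. -/
def IsAbsP (P : Prm F) (v : AbsoluteValue (RatFunc F) ℝ) : Prop :=
  ∀ x : RatFunc F, x ≠ 0 → v x = (2 : ℝ) ^ (-ordK P x)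

/-- `v` is the absolute value of `F(t)` at infinity. -/
def IsAbsInf (v : AbsoluteValue (RatFunc F) ℝ) : Prop :=
  ∀ x : RatFunc F, x ≠ 0 → v x = (2 : ℝ) ^ x.intDegree

end RatFunc

/-! ### The finite data -/

section Data

variable {ℓ : ℕ} {ι : Type} [Fintype ι] [DecidableEq ι] (a : ι → ℕ) (i₀ : ι)

/-- The extension of `v` to all indices, with `∑ a i * v i = 0`. -/
def ext (v : {j : ι // j ≠ i₀} → ZMod ℓ) (i : ι) : ZMod ℓ :=
  if h : i = i₀ then -((a i₀ : ZMod ℓ)⁻¹ * ∑ j : {j : ι // j ≠ i₀}, (a j.1 : ZMod ℓ) * v j)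
    else v ⟨i, h⟩

/-- The sum of the exponents. -/
def asum (ℓ : ℕ) (a : ι → ℕ) : ZMod ℓ := ∑ i, (a i : ZMod ℓ)

variable {σ : Type} [Fintype σ] [DecidableEq σ] (i₁ i₂ : σ → ι) (lgl : ι → ι → ZMod ℓ)

/-- The class of the torsion element: exponents of the bad primes and logarithm of the leading
coefficient, for all indices. -/
def tauX (w : ι → ZMod ℓ) (j : ι) : Option σ → ZMod ℓ
  | some r => if j = i₁ r then (a (i₂ r) : ZMod ℓ) * (asum ℓ a)⁻¹ * (w (i₁ r) - w (i₂ r))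
      else if j = i₂ r then (a (i₁ r) : ZMod ℓ) * (asum ℓ a)⁻¹ * (w (i₂ r) - w (i₁ r)) else 0
  | none => ∑ m, (a m : ZMod ℓ) * (asum ℓ a)⁻¹ * (w j - w m) * lgl m j

omit [Fintype σ] [DecidableEq σ] in
theorem tauX_zero (j : ι) (s : Option σ) : tauX a i₁ i₂ lgl 0 j s = 0 := by
  cases s with
  | none => simp [tauX]
  | some r => simp [tauX]

omit [Fintype σ] [DecidableEq σ] in
theorem tauX_add (w w' : ι → ZMod ℓ) (j : ι) (s : Option σ) :
    tauX a i₁ i₂ lgl (w + w') j s = tauX a i₁ i₂ lgl w j s + tauX a i₁ i₂ lgl w' j s := by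
  cases s with
  | none =>
    simp only [tauX, Pi.add_apply, ← sum_add_distrib]
    exact sum_congr rfl fun m _ => by ring
  | some r =>
    simp only [tauX, Pi.add_apply]
    split_ifs <;> ring

theorem ext_zero (i : ι) : ext a i₀ (0 : {j : ι // j ≠ i₀} → ZMod ℓ) i = 0 := by
  unfold ext
  split_ifs <;> simp

theorem ext_add (v v' : {j : ι // j ≠ i₀} → ZMod ℓ) : ext a i₀ (v + v') = ext a i₀ v + ext a i₀ v' := by
  funext i
  simp only [ext, Pi.add_apply]
  split_ifs with h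
  · simp only [mul_add, sum_add_distrib]
    ring
  · rfl

/-- The map `τ`. -/
def tau : ({j : ι // j ≠ i₀} → ZMod ℓ) →+ ({j : ι // j ≠ i₀} → Option σ → ZMod ℓ) where
  toFun v j s := tauX a i₁ i₂ lgl (ext a i₀ v) j.1 s
  map_zero' := by
    funext j s
    have h : ext a i₀ (0 : {j : ι // j ≠ i₀} → ZMod ℓ) = 0 := funext (ext_zero a i₀)
    rw [h]
    exact tauX_zero a i₁ i₂ lgl j.1 s
  map_add' v v' := by
    funext j s
    simp only [Pi.add_apply]
    rw [ext_add, tauX_add]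

variable (dR : σ → ZMod ℓ) (sR : σ → σ → ZMod ℓ)

/-- The logarithm of `e i - e m` (without the factor `R r`) at `R r`. -/
def lam (r : σ) (i m : ι) : ZMod ℓ :=
  ∑ r' ∈ univ.filter (fun r' => r' ≠ r ∧ s(i₁ r', i₂ r') = s(i, m)), sR r r' + dR r * lgl i m

/-- The constant of the local condition at `R r`. -/
def rho (r : σ) : ZMod ℓ :=
  -((a (i₁ r) : ZMod ℓ)⁻¹ * (((a (i₁ r) : ZMod ℓ) + a (i₂ r)) * lam i₁ i₂ lgl dR sR r (i₁ r) (i₂ r) +
    ∑ m ∈ univ.filter (fun m => m ≠ i₁ r ∧ m ≠ i₂ r),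
      (a m : ZMod ℓ) * lam i₁ i₂ lgl dR sR r (i₁ r) m))

/-- The logarithm of the unit part of a Selmer element at `R r`. -/
def un (b y : Option σ → {j : ι // j ≠ i₀} → ZMod ℓ) (r : σ) (m : ι) : ZMod ℓ :=
  ∑ r' ∈ univ.erase r, ext a i₀ (b (some r')) m * sR r r' + ext a i₀ (b none) m * dR r +
    ext a i₀ (y (some r)) m

/-- The local conditions at the bad primes and at infinity. -/
def HH (N : ZMod ℓ) (b y : Option σ → {j : ι // j ≠ i₀} → ZMod ℓ) (κ : Option σ → ZMod ℓ) :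
    Prop :=
  (∀ r : σ, (∀ m, m ≠ i₁ r → m ≠ i₂ r → ext a i₀ (b (some r)) m = 0) ∧
    un a i₀ dR sR b y r (i₁ r) - un a i₀ dR sR b y r (i₂ r) =
      ext a i₀ (b (some r)) (i₂ r) * (rho a i₁ i₂ lgl dR sR r -
        asum ℓ a * (a (i₁ r) : ZMod ℓ)⁻¹ * κ (some r))) ∧
  (κ none + N = 0 → ∀ j, ∑ r, dR r * b (some r) j + y none j = 0) ∧
  (κ none + N ≠ 0 → ∀ j, b none j = tau a i₀ i₁ i₂ lgl
    (fun j => (κ none + N)⁻¹ * (∑ r, dR r * b (some r) j + y none j)) j none)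

end Data

/-- The polynomials `e i` and the bad primes. -/
structure Setup (ℓ : ℕ) {F : Type} [Field F] {ι : Type} [Fintype ι] [DecidableEq ι]
    (a : ι → ℕ) (e : ι → F[X]) {σ : Type} [Fintype σ] (R : σ → Prm F) (i₁ i₂ : σ → ι) (N : ℕ) :
    Prop where
  ha : ∀ i, ¬ ℓ ∣ a i
  hs : ¬ ℓ ∣ ∑ i, a i
  inj : Function.Injective R
  ne : ∀ r, i₁ r ≠ i₂ r
  deg : ∀ i, (e i).natDegree ≤ N
  lead : ∀ i j, i ≠ j → (e i).coeff N ≠ (e j).coeff N
  fact : ∀ i j, i ≠ j → e i - e j = C ((e i).coeff N - (e j).coeff N) *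
    ∏ r ∈ univ.filter (fun r => s(i₁ r, i₂ r) = s(i, j)), (R r).1
  pair : ∀ i j, i ≠ j → ∃ r, s(i₁ r, i₂ r) = s(i, j)

/-- The logarithms of the leading coefficients. -/
def lglE {ℓ : ℕ} {F : Type} [Field F] {ι : Type} (lg : F → ZMod ℓ) (e : ι → F[X]) (N : ℕ)
    (i j : ι) : ZMod ℓ :=
  lg ((e i).coeff N - (e j).coeff N)

end Pool.Agent.Helper54.PT
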