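import Mathlib

/-!
# Positive proportion of twists: basic definitions

`F` is a finite field, `ℓ` a prime dividing `#F - 1`, and `lg : F → ZMod ℓ` a surjective logarithm.
-/

set_option autoImplicit false

namespace Pool.Agent.Helper54.PT

open Polynomial Finset Filter Topology

/-- The standard additive character of `ZMod ℓ`. -/
noncomputable def ee {ℓ : ℕ} [NeZero ℓ] (x : ZMod ℓ) : ℂ := ZMod.stdAddChar x

/-! ### Logarithms and power residue symbols -/

/-- `lg` is a surjective homomorphism from the multiplicative group of `F` to `ZMod ℓ` whose kernel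
is the group of `ℓ`-th powers. -/
def IsLog (ℓ : ℕ) {F : Type} [Field F] (lg : F → ZMod ℓ) : Prop :=
  (∀ x y, x ≠ 0 → y ≠ 0 → lg (x * y) = lg x + lg y) ∧
    (∀ x, x ≠ 0 → (lg x = 0 ↔ ∃ y, y ^ ℓ = x)) ∧ ∀ c, ∃ x, x ≠ 0 ∧ lg x = c

/-- The norm of `f` modulo the monic polynomial `Q`. -/
noncomputable def nm {F : Type} [Field F] (Q f : F[X]) : F :=
  Algebra.norm F (AdjoinRoot.mk Q f)

/-- The logarithm of the power residue symbol `(f / Q)`. -/
noncomputable def sy {F : Type} [Field F] {ℓ : ℕ} (lg : F → ZMod ℓ) (Q f : F[X]) : ZMod ℓ :=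
  lg (nm Q f)

/-- The monic irreducible polynomials. -/
def Prm (F : Type) [Field F] : Type := {P : F[X] // P.Monic ∧ Irreducible P}

noncomputable instance (F : Type) [Field F] : DecidableEq (Prm F) := Classical.decEq _

theorem finite_natDegree_le (F : Type) [Field F] [Finite F] (n : ℕ) :
    {f : F[X] | f.natDegree ≤ n}.Finite := by
  have h : Finite (degreeLT F (n + 1)) := Finite.of_equiv _ (degreeLTEquiv F (n + 1)).symm.toEquiv
  have h2 : ((degreeLT F (n + 1) : Submodule F F[X]) : Set F[X]).Finite := Set.toFinite _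
  refine h2.subset fun f hf => ?_
  rw [SetLike.mem_coe, mem_degreeLT]
  exact lt_of_le_of_lt degree_le_natDegree (by exact_mod_cast Nat.lt_succ_of_le hf)

/-- The monic polynomials of degree `n` over a finite field. -/
noncomputable def mon (F : Type) [Field F] [Finite F] (n : ℕ) : Finset F[X] :=
  ((finite_natDegree_le F n).subset (t := {f : F[X] | f.Monic ∧ f.natDegree = n})
    fun _ hf => hf.2.le).toFinset

theorem mem_mon {F : Type} [Field F] [Finite F] {n : ℕ} {f : F[X]} :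
    f ∈ mon F n ↔ f.Monic ∧ f.natDegree = n := by
  rw [mon, Set.Finite.mem_toFinset]; rfl

/-- The monic irreducible polynomials of degree `n`. -/
noncomputable def prm (F : Type) [Field F] [Finite F] (n : ℕ) : Finset (Prm F) :=
  (Set.Finite.preimage (f := fun P : Prm F => P.1) (Subtype.val_injective.injOn)
    ((finite_natDegree_le F n).subset (t := {f : F[X] | f.natDegree = n})
      fun _ hf => (show _ = n from hf).le)).toFinset

theorem mem_prm {F : Type} [Field F] [Finite F] {n : ℕ} {P : Prm F} :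
    P ∈ prm F n ↔ P.1.natDegree = n := by
  rw [prm, Set.Finite.mem_toFinset]; rfl

/-! ### Abstract prime data -/

/-- Prime data: a set of primes `P` with degrees, a symmetric symbol `sym` with values in
`ZMod ℓ` and a class map `cl`. -/
structure PData (ℓ : ℕ) (σ : Type) where
  P : Type
  dec : DecidableEq P
  deg : P → ℕ
  pr : ℕ → Finset P
  sym : P → P → ZMod ℓ
  cl : P → σ → ZMod ℓ
  deg_pos : ∀ p, 0 < deg p
  mem_pr : ∀ k p, p ∈ pr k ↔ deg p = k
  sym_comm : ∀ p p', p ≠ p' → sym p p' = sym p' p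

attribute [instance] PData.dec

namespace PData

variable {ℓ : ℕ} {σ : Type} (X : PData ℓ σ)

/-- The degree of a finite set of primes (a squarefree element). -/
def dg (D : Finset X.P) : ℕ := ∑ p ∈ D, X.deg p

/-- The primes of degree at most `n`. -/
def upto (n : ℕ) : Finset X.P := (range (n + 1)).biUnion X.pr

theorem mem_upto {n : ℕ} {p : X.P} : p ∈ X.upto n ↔ X.deg p ≤ n := by
  rw [upto, mem_biUnion]
  constructor
  · rintro ⟨k, hk, hp⟩
    rw [(X.mem_pr k p).1 hp]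
    exact Nat.lt_succ_iff.1 (mem_range.1 hk)
  · intro h
    exact ⟨X.deg p, mem_range.2 (Nat.lt_succ_of_le h), (X.mem_pr _ p).2 rfl⟩

/-- The squarefree elements of degree `n`. -/
def sq (n : ℕ) : Finset (Finset X.P) := (X.upto n).powerset.filter fun D => X.dg D = n

theorem mem_sq {n : ℕ} {D : Finset X.P} : D ∈ X.sq n ↔ X.dg D = n := by
  rw [sq, mem_filter, mem_powerset]
  refine ⟨fun h => h.2, fun h => ⟨fun p hp => X.mem_upto.2 ?_, h⟩⟩
  rw [← h]
  exact single_le_sum (f := X.deg) (fun _ _ => Nat.zero_le _) hp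

/-- The total symbol of two finite sets of primes. -/
def symS (A B : Finset X.P) : ZMod ℓ := ∑ p ∈ A, ∑ p' ∈ B, X.sym p p'

/-- The class vector of a prime: `cl` and the degree. -/
def xx (p : X.P) : Option σ → ZMod ℓ
  | some r => X.cl p r
  | none => (X.deg p : ZMod ℓ)

end PData

/-- The standard pairing. -/
def dot {ℓ : ℕ} {S : Type} [Fintype S] (β x : S → ZMod ℓ) : ZMod ℓ := ∑ s, β s * x s

namespace PData

variable {ℓ : ℕ} [NeZero ℓ] {σ : Type} [Fintype σ] (X : PData ℓ σ)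

/-- The analytic inputs. -/
structure Inputs (q : ℕ) : Prop where
  two_le : 2 ≤ q
  pnt : ∀ k, k * (X.pr k).card ≤ q ^ k
  card_sq : ∀ n, (X.sq n).card ≤ q ^ n
  bilin : ∀ m n : ℕ, m ≤ n → ∀ c : ZMod ℓ, c ≠ 0 → ∀ α β : Finset X.P → ℂ,
    (∀ A, ‖α A‖ ≤ 1) → (∀ B, ‖β B‖ ≤ 1) →
      ‖∑ A ∈ X.sq m, ∑ B ∈ X.sq n,
        if Disjoint A B then α A * β B * ee (c * X.symS A B) else 0‖ ^ 4 ≤
          (n + 1) * (q : ℝ) ^ (3 * m + 4 * n)
  sw : ∀ A K B : ℕ, ∃ n₀ : ℕ, ∀ n, n₀ ≤ n → ∀ (G E : Finset X.P) (g : X.P → ZMod ℓ)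
    (β : Option σ → ZMod ℓ) (m : ℕ) (w : ℝ), G ⊆ E → X.dg G ≤ A * Nat.log 2 n → X.dg E ≤ n →
      n ≤ m ^ K → m ≤ n → 0 ≤ w → w ≤ 1 → ((∃ p ∈ G, g p ≠ 0) ∨ ∃ r, β (some r) ≠ 0) →
        ‖∑ D ∈ (X.sq m).filter fun D => Disjoint D E,
          ∏ p ∈ D, ((w : ℂ) * ee (∑ p' ∈ G, g p' * X.sym p' p + dot β (X.xx p)))‖ *
            (n : ℝ) ^ B ≤ (q : ℝ) ^ m
  div : ∀ β : Option σ → ZMod ℓ, β ≠ 0 →
    Tendsto (fun n : ℕ => ∑ k ∈ range n,
      (((X.pr k).filter fun p => dot β (X.xx p) ≠ 0).card : ℝ) / (q : ℝ) ^ k) atTop atTop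
  lower : ∃ c : ℝ, 0 < c ∧ ∀ᶠ n : ℕ in atTop, c * (q : ℝ) ^ n ≤ ((X.sq n).card : ℝ)

/-! ### Sums over tuples -/

section Tuples

variable {U : Type} [Fintype U] [DecidableEq U] (Φ : U → U → ZMod ℓ) (M : ℕ)
  (θ : U → Option σ → ZMod ℓ)

/-- The weight of a tuple of finite sets of primes. -/
noncomputable def wt (D : U → Finset X.P) : ℂ :=
  (∏ u, ∏ p ∈ D u, (ee (dot (θ u) (X.xx p)) / (M : ℂ))) *
    ee (∑ u, ∑ u', Φ u u' * X.symS (D u) (D u'))

omit [Fintype σ] in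
/-- The tuples of pairwise disjoint finite sets of primes of given degrees. -/
noncomputable def tup (n : U → ℕ) : Finset (U → Finset X.P) := by
  classical
  exact (Fintype.piFinset fun u => X.sq (n u)).filter fun D =>
    ∀ u u', u ≠ u' → Disjoint (D u) (D u')

omit [NeZero ℓ] [Fintype σ] in
theorem mem_tup {n : U → ℕ} {D : U → Finset X.P} :
    D ∈ X.tup n ↔ (∀ u, X.dg (D u) = n u) ∧ ∀ u u', u ≠ u' → Disjoint (D u) (D u') := by
  classical
  simp only [tup, mem_filter, Fintype.mem_piFinset, mem_sq]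

/-- The sum of the weights over tuples of given degrees. -/
noncomputable def SS (n : U → ℕ) : ℂ := ∑ D ∈ X.tup n, X.wt Φ M θ D

/-- The sum of the weights over tuples of total degree `n`. -/
noncomputable def ZZ (n : ℕ) : ℂ := ∑ m ∈ piAntidiag (univ : Finset U) n, X.SS Φ M θ m

/-- The diagonal sum attached to a set of indices. -/
noncomputable def ZU (𝒰 : Finset U) (n : ℕ) : ℂ :=
  ∑ D ∈ X.sq n, ∏ p ∈ D, ((∑ u ∈ 𝒰, ee (dot (θ u) (X.xx p))) / (M : ℂ))

end Tuples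

end PData

/-- Pairwise unlinked sets of indices. -/
def Unl {ℓ : ℕ} {U : Type} (Φ : U → U → ZMod ℓ) (𝒰 : Finset U) : Prop :=
  ∀ u ∈ 𝒰, ∀ u' ∈ 𝒰, Φ u u' + Φ u' u = 0

open Classical in
/-- The unlinked sets with `M` elements. -/
noncomputable def maxU {ℓ : ℕ} {U : Type} [Fintype U] (Φ : U → U → ZMod ℓ) (M : ℕ) :
    Finset (Finset U) := univ.filter fun 𝒰 => Unl Φ 𝒰 ∧ 𝒰.card = M

open Classical in
/-- The main term of the diagonal sum: `ee (γ n)` if `θ u = (0, γ)` for all `u ∈ 𝒰`, else `0`. -/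
noncomputable def mt {ℓ : ℕ} [NeZero ℓ] {σ U : Type} (θ : U → Option σ → ZMod ℓ) (𝒰 : Finset U)
    (n : ℕ) : ℂ :=
  if h : ∃ γ, ∀ u ∈ 𝒰, (∀ r, θ u (some r) = 0) ∧ θ u none = γ then ee (h.choose * (n : ZMod ℓ))
    else 0

/-! ### The Selmer count -/

section Selmer

variable {ℓ : ℕ} [NeZero ℓ] {σ : Type} [Fintype σ] (X : PData ℓ σ) {J : Type} [Fintype J]

/-- The linking form on `V × V`, `V = J → ZMod ℓ`. -/
def PhiJ (u u' : (J → ZMod ℓ) × (J → ZMod ℓ)) : ZMod ℓ := ∑ j, u.2 j * (u'.1 j - u.1 j)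

/-- The defect of the local condition at the prime `p ∈ D`. -/
def pcond (τ : (J → ZMod ℓ) →+ (J → Option σ → ZMod ℓ)) {D : Finset X.P}
    (b : Option σ → J → ZMod ℓ) (v : D → J → ZMod ℓ) (p : D) (j : J) : ZMod ℓ :=
  ∑ s, b s j * X.xx p s + ∑ p' : D, (if p' = p then 0 else (v p' j - v p j) * X.sym p' p) -
    ∑ s, τ (v p) j s * X.xx p s

/-- The class of a finite set of primes. -/
def kap (D : Finset X.P) (s : Option σ) : ZMod ℓ := ∑ p ∈ D, X.xx p s

/-- The class of the prime part of a Selmer element. -/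
def ysum {D : Finset X.P} (v : D → J → ZMod ℓ) (s : Option σ) (j : J) : ZMod ℓ :=
  ∑ p : D, X.xx p s * v p j

open Classical in
/-- The formal Selmer group attached to `D`. -/
noncomputable def GD [DecidableEq σ] [DecidableEq J] (τ : (J → ZMod ℓ) →+ (J → Option σ → ZMod ℓ))
    (H : (Option σ → J → ZMod ℓ) → (Option σ → J → ZMod ℓ) → (Option σ → ZMod ℓ) → Prop)
    (D : Finset X.P) : Finset ((Option σ → J → ZMod ℓ) × (D → J → ZMod ℓ)) :=
  univ.filter fun x => H x.1 (ysum X x.2) (kap X D) ∧ ∀ p j, pcond X τ x.1 x.2 p j = 0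

/-- The function `θ` attached to `b`, `η`, `μ`. -/
def thet (τ : (J → ZMod ℓ) →+ (J → Option σ → ZMod ℓ)) (b η : Option σ → J → ZMod ℓ)
    (μ : Option σ → ZMod ℓ) (u : (J → ZMod ℓ) × (J → ZMod ℓ)) (s : Option σ) : ZMod ℓ :=
  ∑ j, (u.2 j * (b s j - τ u.1 j s) + η s j * u.1 j) + μ s

open Classical in
/-- The Fourier coefficients of the conditions `H`. -/
noncomputable def hatH [DecidableEq σ] [DecidableEq J]
    (H : (Option σ → J → ZMod ℓ) → (Option σ → J → ZMod ℓ) → (Option σ → ZMod ℓ) → Prop)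
    (b η : Option σ → J → ZMod ℓ) (μ : Option σ → ZMod ℓ) : ℂ :=
  (∑ y : Option σ → J → ZMod ℓ, ∑ κ : Option σ → ZMod ℓ, if H b y κ then
    ee (-(∑ s, ∑ j, η s j * y s j + ∑ s, μ s * κ s)) else 0) /
      ((ℓ : ℂ) ^ ((Fintype.card J + 1) * (Fintype.card σ + 1)))

/-- `𝒰` is one of the two standard families of maximal unlinked sets. -/
def IsStd (𝒰 : Finset ((J → ZMod ℓ) × (J → ZMod ℓ))) : Prop :=
  (∃ v₀, ∀ u, u ∈ 𝒰 ↔ u.1 = v₀) ∨ ∃ w₀, ∀ u, u ∈ 𝒰 ↔ u.2 = w₀

/-- The genericity condition: on every other maximal unlinked set one of the functions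
`(v, w) ↦ ∑ j, w j * τ v j r` is not affine. -/
def Generic (τ : (J → ZMod ℓ) →+ (J → Option σ → ZMod ℓ)) : Prop :=
  ∀ 𝒰 : Finset ((J → ZMod ℓ) × (J → ZMod ℓ)), Unl PhiJ 𝒰 → 𝒰.card = ℓ ^ Fintype.card J →
    ¬ IsStd 𝒰 → ∃ r : σ, ¬ ∃ (η ω : J → ZMod ℓ) (c : ZMod ℓ), ∀ u ∈ 𝒰,
      ∑ j, u.2 j * τ u.1 j (some r) = ∑ j, (η j * u.1 j + ω j * u.2 j) + c

/-- The torsion element of the formal Selmer group attached to `v`. -/
def tor (τ : (J → ZMod ℓ) →+ (J → Option σ → ZMod ℓ)) (D : Finset X.P) (v : J → ZMod ℓ) :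
    (Option σ → J → ZMod ℓ) × (D → J → ZMod ℓ) := (fun s j => τ v j s, fun _ => v)

end Selmer

end Pool.Agent.Helper54.PT
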