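import Pool.Agent.Helper54.PT.DefsC
import Pool.Agent.Helper54.PT.Pd

/-!
# Positive proportion of twists: the class of a Selmer element
-/

set_option autoImplicit false

namespace Pool.Agent.Helper54.PT

open Polynomial Finset

variable {F : Type} [Field F] {ι : Type}

/-- The twist as a tuple of rational functions. -/
noncomputable def tw (e : ι → F[X]) (D : Finset (Prm F)) (i : ι) : RatFunc F :=
  algebraMap F[X] (RatFunc F) ((∏ P ∈ D, P.1) * e i)

/-- The monic squarefree polynomials of degree `n`, coprime to all `e i - e j`. -/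
def sqf (e : ι → F[X]) (n : ℕ) : Set F[X] :=
  {D | D.Monic ∧ D.natDegree = n ∧ Squarefree D ∧ ∀ i j, i ≠ j → IsCoprime D (e i - e j)}

variable {ℓ : ℕ} {σ : Type}

/-- The exponents at the bad primes and the logarithms of the leading coefficients. -/
noncomputable def bcl (lg : F → ZMod ℓ) (R : σ → Prm F) (i₀ : ι) (d : ι → (RatFunc F)ˣ) :
    Option σ → {j : ι // j ≠ i₀} → ZMod ℓ
  | some r, j => (ordK (R r) (d j.1 : RatFunc F) : ZMod ℓ)
  | none, j => lg (lcK (d j.1 : RatFunc F))

variable [Finite F]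

/-- The exponents at the primes of `D`. -/
noncomputable def vcl (lg : F → ZMod ℓ)
    (hrec : ∀ P Q : Prm F, P ≠ Q → sy lg Q.1 P.1 = sy lg P.1 Q.1) (R : σ → Prm F) (i₀ : ι)
    (D : Finset (pd lg hrec R).P) (d : ι → (RatFunc F)ˣ) : D → {j : ι // j ≠ i₀} → ZMod ℓ :=
  fun P j => (ordK P.1.1 (d j.1 : RatFunc F) : ZMod ℓ)

/-- The primes of `D` as primes of `F[X]`. -/
def und (lg : F → ZMod ℓ) (hrec : ∀ P Q : Prm F, P ≠ Q → sy lg Q.1 P.1 = sy lg P.1 Q.1)
    (R : σ → Prm F) (D : Finset (pd lg hrec R).P) : Finset (Prm F) :=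
  D.map ⟨fun P => P.1, Subtype.val_injective⟩

end Pool.Agent.Helper54.PT
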