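import Pool.Agent.Helper54.PT.DefsD

/-!
# Quadratic twists: definitions
-/

set_option autoImplicit false

namespace Pool.Agent.Helper54.PT

open Polynomial Finset

section Abstract

variable {σ : Type} [Fintype σ] {J : Type} [Fintype J]

/-- The conditions `H`, restricted to twists with given classes at the bad primes. -/
def Hk {ℓ : ℕ} (H : (Option σ → J → ZMod ℓ) → (Option σ → J → ZMod ℓ) → (Option σ → ZMod ℓ) → Prop)
    (κ₀ : σ → ZMod ℓ) (b y : Option σ → J → ZMod ℓ) (κ : Option σ → ZMod ℓ) : Prop :=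
  H b y κ ∧ ∀ r, κ (some r) = κ₀ r

/-- The third standard family of maximal unlinked sets for `ℓ = 2`. -/
def IsStd3 (𝒰 : Finset ((J → ZMod 2) × (J → ZMod 2))) : Prop :=
  ∃ w₀ : J → ZMod 2, ∀ u, u ∈ 𝒰 ↔ ∀ j, u.2 j = w₀ j + u.1 j + ∑ i, u.1 i

/-- The genericity condition for `ℓ = 2`. -/
def Generic2 (τ : (J → ZMod 2) →+ (J → Option σ → ZMod 2)) : Prop :=
  ∀ 𝒰 : Finset ((J → ZMod 2) × (J → ZMod 2)), Unl PhiJ 𝒰 → 𝒰.card = 2 ^ Fintype.card J →
    ¬ IsStd 𝒰 → ¬ IsStd3 𝒰 → ∃ r : σ, ¬ ∃ (η ω : J → ZMod 2) (c : ZMod 2), ∀ u ∈ 𝒰,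
      ∑ j, u.2 j * τ u.1 j (some r) = ∑ j, (η j * u.1 j + ω j * u.2 j) + c

end Abstract

/-! ### The quadratic space -/

section Space

variable {ι : Type} [Fintype ι] [DecidableEq ι] (a : ι → ℕ) (i₀ : ι)
  {σ : Type} [Fintype σ] [DecidableEq σ] (i₁ i₂ : σ → ι) (lgl : ι → ι → ZMod 2)
  (dR : σ → ZMod 2) (sR : σ → σ → ZMod 2) (X : PData 2 σ) (D : Finset X.P)

/-- The index set of the places. -/
abbrev Pl (D : Finset X.P) : Type := Option σ ⊕ D

/-- The quadratic space. -/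
abbrev QV (D : Finset X.P) : Type :=
  (Pl X D → {j : ι // j ≠ i₀} → ZMod 2) × (Pl X D → {j : ι // j ≠ i₀} → ZMod 2)

/-- The logarithm of `e i - e m` at the prime `p`. -/
def gP (p : X.P) (i m : ι) : ZMod 2 :=
  ∑ r ∈ univ.filter (fun r => s(i₁ r, i₂ r) = s(i, m)), X.xx p (some r) + X.xx p none * lgl i m

/-- The linear coefficients of the first component. -/
def cx : Pl X D → ι → ZMod 2
  | Sum.inl (some r), i => ∑ m ∈ univ.erase i, lam i₁ i₂ lgl dR sR r i m
  | Sum.inl none, _ => 0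
  | Sum.inr p, i => ∑ m ∈ univ.erase i, gP i₁ i₂ lgl X p.1 i m

/-- The linear coefficients of the second component. -/
def cz : Pl X D → ι → ZMod 2
  | Sum.inl (some r), i => (if i = i₁ r then 1 else 0) + if i = i₂ r then 1 else 0
  | Sum.inl none, i => ∑ m ∈ univ.erase i, lgl i m
  | Sum.inr _, _ => 0

/-- The bilinear form. -/
def bB (x y : QV i₀ X D) : ZMod 2 :=
  ∑ t, ∑ i, (ext a i₀ (x.1 t) i * ext a i₀ (y.2 t) i + ext a i₀ (x.2 t) i * ext a i₀ (y.1 t) i)

/-- The quadratic form. -/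
def qQ (x : QV i₀ X D) : ZMod 2 :=
  ∑ t, ∑ i, (ext a i₀ (x.1 t) i * ext a i₀ (x.2 t) i +
    ext a i₀ (x.1 t) i * cx i₁ i₂ lgl dR sR X D t i +
      ext a i₀ (x.2 t) i * cz i₁ i₂ lgl X D t i)

/-- The localisation map: the second components of a global element. -/
def zZ (x : Pl X D → {j : ι // j ≠ i₀} → ZMod 2) : Pl X D → {j : ι // j ≠ i₀} → ZMod 2
  | Sum.inl (some r), j => ∑ r' ∈ univ.erase r, x (Sum.inl (some r')) j * sR r r' +
      x (Sum.inl none) j * dR r + ∑ p : D, X.xx p.1 (some r) * x (Sum.inr p) j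
  | Sum.inl none, j => ∑ r, dR r * x (Sum.inl (some r)) j +
      ∑ p : D, X.xx p.1 none * x (Sum.inr p) j
  | Sum.inr p, j => ∑ s : Option σ, x (Sum.inl s) j * X.xx p.1 s +
      ∑ p' : D, (if p' = p then 0 else x (Sum.inr p') j * X.sym p'.1 p.1)

/-- The global elements. -/
def LW : Submodule (ZMod 2) (QV i₀ X D) where
  carrier := {x | x.2 = zZ i₀ dR sR X D x.1}
  add_mem' {x y} hx hy := by
    change x.2 + y.2 = zZ i₀ dR sR X D (x.1 + y.1)
    rw [show x.2 = zZ i₀ dR sR X D x.1 from hx, show y.2 = zZ i₀ dR sR X D y.1 from hy]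
    funext t j
    rcases t with (_ | r) | p
    · simp only [zZ, Pi.add_apply, mul_add, sum_add_distrib]
      ring
    · simp only [zZ, Pi.add_apply, mul_add, add_mul, sum_add_distrib]
      ring
    · have h2 : ∀ p' : D, (if p' = p then (0 : ZMod 2) else
          (x.1 (Sum.inr p') j + y.1 (Sum.inr p') j) * X.sym p'.1 p.1) =
          (if p' = p then 0 else x.1 (Sum.inr p') j * X.sym p'.1 p.1) +
          (if p' = p then 0 else y.1 (Sum.inr p') j * X.sym p'.1 p.1) := by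
        intro p'
        split_ifs
        · simp
        · ring
      simp only [zZ, Pi.add_apply]
      rw [sum_congr rfl fun p' _ => h2 p']
      simp only [add_mul, sum_add_distrib]
      ring
  zero_mem' := by
    change (0 : Pl X D → {j : ι // j ≠ i₀} → ZMod 2) = zZ i₀ dR sR X D 0
    funext t j
    rcases t with (_ | r) | p <;> simp [zZ]
  smul_mem' c x hx := by
    change c • x.2 = zZ i₀ dR sR X D (c • x.1)
    rw [show x.2 = zZ i₀ dR sR X D x.1 from hx]
    funext t j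
    rcases t with (_ | r) | p
    · simp only [zZ, Pi.smul_apply, smul_eq_mul, mul_add, mul_sum]
      congr 1 <;> exact sum_congr rfl fun _ _ => by ring
    · simp only [zZ, Pi.smul_apply, smul_eq_mul, mul_add, mul_sum]
      congr 1
      · congr 1
        · exact sum_congr rfl fun _ _ => by ring
        · ring
      · exact sum_congr rfl fun _ _ => by ring
    · simp only [zZ, Pi.smul_apply, smul_eq_mul, mul_add, mul_sum]
      congr 1
      · exact sum_congr rfl fun _ _ => by ring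
      · exact sum_congr rfl fun _ _ => by split_ifs <;> ring

/-- The local condition at the place `t`; `ram` tells whether the primes of `D` are ramified. -/
def locC (N : ZMod 2) (κ : Option σ → ZMod 2) (ram : Prop) :
    Pl X D → ({j : ι // j ≠ i₀} → ZMod 2) → ({j : ι // j ≠ i₀} → ZMod 2) → Prop
  | Sum.inl (some r), x, z => (∀ m, m ≠ i₁ r → m ≠ i₂ r → ext a i₀ x m = 0) ∧
      ext a i₀ z (i₁ r) - ext a i₀ z (i₂ r) = ext a i₀ x (i₂ r) *
        (rho a i₁ i₂ lgl dR sR r - asum 2 a * (a (i₁ r) : ZMod 2)⁻¹ * κ (some r))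
  | Sum.inl none, x, z => (κ none + N = 0 → ∀ j, z j = 0) ∧
      (κ none + N ≠ 0 → ∀ j, x j = tau a i₀ i₁ i₂ lgl (fun j => (κ none + N)⁻¹ * z j) j none)
  | Sum.inr p, x, z => (ram → ∀ j, z j = (∑ p' : D, if p' = p then 0 else X.sym p'.1 p.1) * x j +
      ∑ s, tau a i₀ i₁ i₂ lgl x j s * X.xx p.1 s) ∧ (¬ ram → ∀ j, x j = 0)

end Space

end Pool.Agent.Helper54.PT
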